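import Mathlib

/-!
# Descent of regularity: statements for the weighted integral case
-/

set_option autoImplicit false

namespace Pool.Agent.Y808.DR

open IsLocalRing

universe u

/-- `b` satisfies a monic equation over `A` whose coefficients lie in the expected powers of `P` -/
def WEq (A B : Type u) [CommRing A] [CommRing B] [Algebra A B] (P : Ideal B) (j : ℕ) (b : B) :
    Prop :=
  ∃ f : Polynomial A, f.Monic ∧ Polynomial.aeval b f = 0 ∧
    ∀ i ≤ f.natDegree, algebraMap A B (f.coeff (f.natDegree - i)) ∈ P ^ (i * j)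

/-- TR2: the trace retraction, with weights -/
def S_TR2 : Prop := ∀ (A B : Type u) [CommRing A] [CommRing B] [IsDomain A] [IsDomain B]
  [IsIntegrallyClosed A] [Algebra ℚ A] [Algebra A B] [Module.Finite A B],
  Function.Injective (algebraMap A B) →
    ∃ T : B →ₗ[A] A, IsUnit (T 1) ∧
      (∀ p : Ideal A, p.IsPrime → ∀ b ∈ (p.map (algebraMap A B)).radical, T b ∈ p) ∧
      (∀ (P : Ideal B) (j : ℕ) (b : B), WEq A B P j b → WEq A B P j (algebraMap A B (T b)))

/-- PRD: products -/
def S_PRD : Prop := ∀ (A B : Type u) [CommRing A] [CommRing B] [Algebra A B] [Module.Finite A B]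
  (P : Ideal B), (∀ x ∈ P, WEq A B P 1 x) → ∀ j : ℕ, ∀ b ∈ P ^ j, WEq A B P j b

/-- ORD: the order function of a regular closed subscheme is a valuation -/
def S_ORD : Prop := ∀ (B : Type u) [CommRing B] [Algebra ℚ B] [IsRegularLocalRing B] (d : ℕ)
  (z : Fin d → B) (U : Finset (Fin d)), ringKrullDim B = d →
  Ideal.span (Set.range z) = maximalIdeal B →
  ∀ (k l : ℕ) (x y : B), x ∈ Ideal.span (z '' U) ^ k → x ∉ Ideal.span (z '' U) ^ (k + 1) →
    y ∈ Ideal.span (z '' U) ^ l → y ∉ Ideal.span (z '' U) ^ (l + 1) →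
    x * y ∉ Ideal.span (z '' U) ^ (k + l + 1)

/-- SYS: a regular system of parameters adapted to a regular closed subscheme -/
def S_SYS : Prop := ∀ (B : Type u) [CommRing B] [IsRegularLocalRing B] (P : Ideal B),
  IsRegularLocalRing (B ⧸ P) → ∃ (d : ℕ) (z : Fin d → B) (U : Finset (Fin d)),
    ringKrullDim B = d ∧ Ideal.span (Set.range z) = maximalIdeal B ∧ Ideal.span (z '' U) = P

end Pool.Agent.Y808.DR
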