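import Pool.Agent.Y808.DR.One
import Pool.Agent.Y153.DR.QR
import Pool.Agent.Y47.DR.NORM
import Pool.Agent.Y41.DR.KL
import Pool.Agent.Y43.DR.TR
import Pool.Agent.Y921.DR.TWO

/-!
# Assembly: principal primes and primes of dimension at most one
-/

set_option autoImplicit false

namespace Pool.Agent.Y808.DR

open IsLocalRing

universe u

theorem norm : S_NORM.{u} := Pool.Agent.Y47.DR.t_NORM Pool.Agent.Y153.DR.t_QR

theorem kl : S_KL.{u} := Pool.Agent.Y41.DR.t_KL Pool.Agent.Y153.DR.t_QR

theorem main1 (A B : Type u) [CommRing A] [CommRing B] [IsRegularLocalRing A]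
    [IsRegularLocalRing B] [Algebra ℚ A] [Algebra A B] [Module.Finite A B]
    (hinj : Function.Injective (algebraMap A B)) (p : Ideal A) [hp : p.IsPrime]
    (hreg : IsRegularLocalRing (B ⧸ (p.map (algebraMap A B)).radical))
    (h : p.IsPrincipal ∨ ringKrullDim (A ⧸ p) ≤ 1) : IsRegularLocalRing (A ⧸ p) := by
  have hA : IsDomain A := Pool.Agent.H379R3.isDomain A
  have hB : IsDomain B := Pool.Agent.H379R3.isDomain B
  have hn : IsIntegrallyClosed A := norm A
  letI : Algebra ℚ B := ((algebraMap A B).comp (algebraMap ℚ A)).toAlgebra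
  obtain ⟨T, hT, hTP⟩ := Pool.Agent.Y43.DR.TR.t_TR A B hinj
  rcases h with h | h
  · obtain ⟨D, rfl⟩ := h.principal
    exact t_ONE kl A B hinj D hp T hT (hTP _ hp) hreg
  · exact Pool.Agent.Y921.DR.t_TWO A B p T hinj hp hT (hTP p hp) hreg h

end Pool.Agent.Y808.DR
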