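import Mathlib

/-!
# Stability of the powers of `P` under the trace retraction when `pB` is a power of `P`
-/

set_option autoImplicit false

namespace Pool.Agent.Y808.DR

universe u

theorem T_mul_mem {A B : Type u} [CommRing A] [CommRing B] [Algebra A B] (T : B →ₗ[A] A)
    (p I : Ideal A) (Q : Ideal B) (hT : ∀ b ∈ Q, T b ∈ p) :
    ∀ b ∈ I.map (algebraMap A B) * Q, T b ∈ I * p := by
  intro b hb
  refine Submodule.mul_induction_on hb ?_ ?_
  · intro r hr s hs
    rw [Ideal.map] at hr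
    revert s
    refine Submodule.span_induction (p := fun r _ => ∀ s ∈ Q, T (r * s) ∈ I * p) ?_ ?_ ?_ ?_ hr
    · rintro _ ⟨a, ha, rfl⟩ s hs
      rw [← Algebra.smul_def, map_smul, smul_eq_mul]
      exact Ideal.mul_mem_mul ha (hT s hs)
    · intro s _
      rw [zero_mul, map_zero]
      exact Ideal.zero_mem _
    · intro x y _ _ hx hy s hs
      rw [add_mul, map_add]
      exact Ideal.add_mem _ (hx s hs) (hy s hs)
    · intro a x _ hx s hs
      have h1 : a • x * s = x * (a * s) := by rw [smul_eq_mul]; ring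
      rw [h1]
      exact hx _ (Ideal.mul_mem_left _ _ hs)
  · intro x y hx hy
    rw [map_add]
    exact Ideal.add_mem _ hx hy

theorem stab {A B : Type u} [CommRing A] [CommRing B] [Algebra A B] (T : B →ₗ[A] A)
    (p : Ideal A) (P : Ideal B) (hT : ∀ b ∈ P, T b ∈ p) (e : ℕ) (he0 : e ≠ 0)
    (he : p.map (algebraMap A B) = P ^ e) :
    ∀ j : ℕ, ∀ b ∈ P ^ j, algebraMap A B (T b) ∈ P ^ j := by
  intro j b hb
  rcases Nat.eq_zero_or_pos j with rfl | hj
  · rw [pow_zero, Ideal.one_eq_top]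
    exact Submodule.mem_top
  obtain ⟨q, i, hi1, hi2, rfl⟩ : ∃ q i : ℕ, 1 ≤ i ∧ i ≤ e ∧ j = e * q + i := by
    refine ⟨(j - 1) / e, (j - 1) % e + 1, by omega, ?_, ?_⟩
    · have := Nat.mod_lt (j - 1) (Nat.pos_of_ne_zero he0)
      omega
    · have := Nat.div_add_mod (j - 1) e
      omega
  rw [pow_add, pow_mul, ← he, ← Ideal.map_pow] at hb
  have h1 := T_mul_mem T p (p ^ q) (P ^ i)
    (fun b hb => hT b (Ideal.pow_le_self (by omega) hb)) b hb
  rw [← pow_succ] at h1
  have h2 : algebraMap A B (T b) ∈ (p ^ (q + 1)).map (algebraMap A B) :=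
    Ideal.mem_map_of_mem _ h1
  rw [Ideal.map_pow, he, ← pow_mul] at h2
  refine Ideal.pow_le_pow_right ?_ h2
  rw [Nat.mul_add]
  omega

end Pool.Agent.Y808.DR
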