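import Mathlib

/-!
# Descent of regularity: statements of the parts for primes with `pB` a power of its radical
-/

set_option autoImplicit false

namespace Pool.Agent.Y808.DR

open IsLocalRing

universe u

/-- EUL: an Euler derivation along a regular closed subscheme, modulo a power of the maximal
ideal -/
def S_EUL : Prop := ∀ (B : Type u) [CommRing B] [Algebra ℚ B] [IsRegularLocalRing B] (P : Ideal B),
  IsRegularLocalRing (B ⧸ P) → ∀ N : ℕ,
  ∃ θ : Derivation ℤ B (B ⧸ maximalIdeal B ^ N),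
    (∀ b : B, θ b ∈ P.map (Ideal.Quotient.mk (maximalIdeal B ^ N))) ∧
    (∀ x ∈ P, θ x - Ideal.Quotient.mk (maximalIdeal B ^ N) x ∈
      (P ^ 2).map (Ideal.Quotient.mk (maximalIdeal B ^ N)))

/-- REG: a criterion for regularity of a quotient -/
def S_REG : Prop := ∀ (A : Type u) [CommRing A] [IsRegularLocalRing A] (K : Ideal A), K ≠ ⊤ →
  K ⊓ maximalIdeal A ^ 2 ≤ maximalIdeal A * K → IsRegularLocalRing (A ⧸ K)

/-- DES: the descent argument -/
def S_DES : Prop := ∀ (A B : Type u) [CommRing A] [CommRing B] [IsRegularLocalRing A]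
  [IsRegularLocalRing B] [Algebra ℚ B] [Algebra A B] [Module.Finite A B] (T : B →ₗ[A] A)
  (p : Ideal A) (P : Ideal B), p.IsPrime → IsUnit (T 1) → P ≠ ⊤ →
  (∀ a : A, algebraMap A B a ∈ P → a ∈ p) →
  (∀ j : ℕ, ∀ b ∈ P ^ j, algebraMap A B (T b) ∈ P ^ j) →
  (∀ b ∈ P, T b ∈ p) →
  (∀ N : ℕ, ∃ θ : Derivation ℤ B (B ⧸ maximalIdeal B ^ N),
    (∀ b : B, θ b ∈ P.map (Ideal.Quotient.mk (maximalIdeal B ^ N))) ∧
    (∀ x ∈ P, θ x - Ideal.Quotient.mk (maximalIdeal B ^ N) x ∈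
      (P ^ 2).map (Ideal.Quotient.mk (maximalIdeal B ^ N)))) →
  p ⊓ maximalIdeal A ^ 2 ≤ maximalIdeal A * p

end Pool.Agent.Y808.DR
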