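import Pool.Agent.Y808.DR.Norm
import Pool.Agent.Y808.DR.Stm2
import Pool.Agent.Y808.DR.Stab
import Pool.Agent.Y891.DR.REG
import Pool.Agent.Y177.DR.DES
import Pool.Agent.Y768.DR.EUL

/-!
# Assembly: primes whose extension is a power of its radical
-/

set_option autoImplicit false

namespace Pool.Agent.Y808.DR

open IsLocalRing

universe u

theorem main2 (A B : Type u) [CommRing A] [CommRing B] [IsRegularLocalRing A]
    [IsRegularLocalRing B] [Algebra ℚ A] [Algebra A B] [Module.Finite A B]
    (hinj : Function.Injective (algebraMap A B)) (p : Ideal A) [hp : p.IsPrime]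
    (hreg : IsRegularLocalRing (B ⧸ (p.map (algebraMap A B)).radical)) (e : ℕ)
    (he : p.map (algebraMap A B) = (p.map (algebraMap A B)).radical ^ e) :
    IsRegularLocalRing (A ⧸ p) := by
  have hA : IsDomain A := Pool.Agent.H379R3.isDomain A
  have hB : IsDomain B := Pool.Agent.H379R3.isDomain B
  have hn : IsIntegrallyClosed A := norm A
  letI : Algebra ℚ B := ((algebraMap A B).comp (algebraMap ℚ A)).toAlgebra
  obtain ⟨T, hT, hTP⟩ := Pool.Agent.Y43.DR.TR.t_TR A B hinj
  have hTp := hTP p hp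
  set P := (p.map (algebraMap A B)).radical with hP
  have hPtop : P ≠ ⊤ := Ideal.Quotient.nontrivial_iff.1 inferInstance
  have he0 : e ≠ 0 := by
    rintro rfl
    rw [pow_zero, Ideal.one_eq_top] at he
    apply hPtop
    rw [hP, he, Ideal.radical_top]
  have hpP : ∀ a ∈ p, algebraMap A B a ∈ P := fun a ha =>
    Ideal.le_radical (Ideal.mem_map_of_mem _ ha)
  have hPp : ∀ a : A, algebraMap A B a ∈ P → a ∈ p := by
    intro a ha
    have h1 := hTp _ ha
    rw [Algebra.algebraMap_eq_smul_one, map_smul, smul_eq_mul] at h1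
    exact (hp.mem_or_mem h1).resolve_right fun h => hp.ne_top (Ideal.eq_top_of_isUnit_mem _ h hT)
  refine Pool.Agent.Y891.DR.t_REG A p hp.ne_top ?_
  exact Pool.Agent.Y177.DR.t_DES A B T p P hp hT hPtop hpP hPp (stab T p P hTp e he0 he) hTp
    (Pool.Agent.Y768.DR.t_EUL Pool.Agent.Y153.DR.t_QR B P hreg)

end Pool.Agent.Y808.DR
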