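import Pool.Agent.Y808.DR.Stm3
import Pool.Agent.H379R3.Reg

/-!
# Stability of the powers of `P` under the trace retraction: the weighted integral case
-/

set_option autoImplicit false

namespace Pool.Agent.Y808.DR

open IsLocalRing

universe u

theorem mem_of_WEq (hORD : S_ORD.{u}) (A B : Type u) [CommRing A] [CommRing B] [Algebra A B]
    [Algebra ℚ B] [IsRegularLocalRing B] (d : ℕ) (z : Fin d → B) (U : Finset (Fin d))
    (hd : ringKrullDim B = d) (hz : Ideal.span (Set.range z) = maximalIdeal B) (P : Ideal B)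
    (hP : Ideal.span (z '' U) = P) (j : ℕ) (t : B) (h : WEq A B P j t) : t ∈ P ^ j := by
  classical
  subst hP
  set P := Ideal.span (z '' U) with hP
  have hPm : P ≤ maximalIdeal B := by
    rw [← hz]
    exact Ideal.span_mono (Set.image_subset_range _ _)
  by_contra hj
  have hex : ∃ k, t ∉ P ^ (k + 1) := by
    rcases Nat.eq_zero_or_pos j with rfl | hj0
    · exact absurd (by rw [pow_zero, Ideal.one_eq_top]; exact Submodule.mem_top) hj
    · refine ⟨j - 1, ?_⟩
      rw [Nat.sub_add_cancel hj0]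
      exact hj
  obtain ⟨k, hk, hkmin⟩ : ∃ k, t ∉ P ^ (k + 1) ∧ ∀ l < k, t ∈ P ^ (l + 1) :=
    ⟨Nat.find hex, Nat.find_spec hex, fun l hl => not_not.1 (Nat.find_min hex hl)⟩
  have hkm : t ∈ P ^ k := by
    rcases Nat.eq_zero_or_pos k with rfl | hk0
    · rw [pow_zero, Ideal.one_eq_top]; exact Submodule.mem_top
    · have := hkmin (k - 1) (by omega)
      rwa [Nat.sub_add_cancel hk0] at this
  have hkj : k + 1 ≤ j := by
    by_contra hlt
    apply hj
    have : j ≤ k := by omega
    exact Ideal.pow_le_pow_right this hkm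
  have hpow : ∀ n : ℕ, t ^ n ∈ P ^ (n * k) ∧ t ^ n ∉ P ^ (n * k + 1) := by
    intro n
    induction n with
    | zero =>
      refine ⟨?_, ?_⟩
      · rw [Nat.zero_mul, pow_zero, pow_zero, Ideal.one_eq_top]; exact Submodule.mem_top
      · rw [Nat.zero_mul, pow_zero, pow_one]
        intro h1
        exact (maximalIdeal.isMaximal B).ne_top
          (Ideal.eq_top_of_isUnit_mem _ (hPm h1) isUnit_one)
    | succ n ih =>
      refine ⟨?_, ?_⟩
      · rw [pow_succ, Nat.succ_mul, pow_add]
        exact Ideal.mul_mem_mul ih.1 hkm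
      · have := hORD B d z U hd hz (n * k) k (t ^ n) t ih.1 ih.2 hkm hk
        have e1 : t ^ (n + 1) = t ^ n * t := pow_succ t n
        have e2 : (n + 1) * k + 1 = n * k + k + 1 := by ring
        rw [e1, e2]
        exact this
  obtain ⟨f, hf, hft, hc⟩ := h
  set M := f.natDegree with hM
  apply (hpow M).2
  rw [Polynomial.aeval_eq_sum_range, Finset.sum_range_succ, ← hM, hf.coeff_natDegree, one_smul]
    at hft
  have h1 : t ^ M = - ∑ i ∈ Finset.range M, f.coeff i • t ^ i := by
    rw [eq_neg_iff_add_eq_zero, add_comm]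
    exact hft
  rw [h1]
  apply Ideal.neg_mem_iff _ |>.2
  refine Ideal.sum_mem _ fun i hi => ?_
  rw [Finset.mem_range] at hi
  have h2 := hc (M - i) (by omega)
  rw [Nat.sub_sub_self hi.le] at h2
  have h3 := Ideal.mul_mem_mul h2 (hpow i).1
  rw [← pow_add] at h3
  rw [Algebra.smul_def]
  refine Ideal.pow_le_pow_right ?_ h3
  obtain ⟨m, hm⟩ : ∃ m, M = i + m := ⟨M - i, by omega⟩
  have hm1 : 1 ≤ m := by omega
  rw [hm, Nat.add_sub_cancel_left]
  calc (i + m) * k + 1 ≤ (i + m) * k + m := by omega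
    _ = m * (k + 1) + i * k := by ring
    _ ≤ m * j + i * k := by gcongr

end Pool.Agent.Y808.DR
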