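import Pool.Agent.Y808.DR.Fin2
import Pool.Agent.Y808.DR.Stab3

/-!
# Assembly: the weighted integral case
-/

set_option autoImplicit false

namespace Pool.Agent.Y808.DR

open IsLocalRing

universe u

theorem main3 (hTR2 : S_TR2.{u}) (hPRD : S_PRD.{u}) (hORD : S_ORD.{u}) (hSYS : S_SYS.{u})
    (A B : Type u) [CommRing A] [CommRing B] [IsRegularLocalRing A]
    [IsRegularLocalRing B] [Algebra ℚ A] [Algebra A B] [Module.Finite A B]
    (hinj : Function.Injective (algebraMap A B)) (p : Ideal A) [hp : p.IsPrime]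
    (hreg : IsRegularLocalRing (B ⧸ (p.map (algebraMap A B)).radical))
    (hH : ∀ x ∈ (p.map (algebraMap A B)).radical,
      WEq A B (p.map (algebraMap A B)).radical 1 x) :
    IsRegularLocalRing (A ⧸ p) := by
  have hA : IsDomain A := Pool.Agent.H379R3.isDomain A
  have hB : IsDomain B := Pool.Agent.H379R3.isDomain B
  have hn : IsIntegrallyClosed A := norm A
  letI : Algebra ℚ B := ((algebraMap A B).comp (algebraMap ℚ A)).toAlgebra
  obtain ⟨T, hT, hTP, hTW⟩ := hTR2 A B hinj
  have hTp := hTP p hp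
  set P := (p.map (algebraMap A B)).radical with hP
  have hPtop : P ≠ ⊤ := Ideal.Quotient.nontrivial_iff.1 inferInstance
  have hpP : ∀ a ∈ p, algebraMap A B a ∈ P := fun a ha =>
    Ideal.le_radical (Ideal.mem_map_of_mem _ ha)
  have hPp : ∀ a : A, algebraMap A B a ∈ P → a ∈ p := by
    intro a ha
    have h1 := hTp _ ha
    rw [Algebra.algebraMap_eq_smul_one, map_smul, smul_eq_mul] at h1
    exact (hp.mem_or_mem h1).resolve_right fun h => hp.ne_top (Ideal.eq_top_of_isUnit_mem _ h hT)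
  obtain ⟨d, z, U, hd, hz, hU⟩ := hSYS B P hreg
  refine Pool.Agent.Y891.DR.t_REG A p hp.ne_top ?_
  refine Pool.Agent.Y177.DR.t_DES A B T p P hp hT hPtop hpP hPp ?_ hTp
    (Pool.Agent.Y768.DR.t_EUL Pool.Agent.Y153.DR.t_QR B P hreg)
  intro j b hb
  exact mem_of_WEq hORD A B d z U hd hz P hU j _ (hTW P j b (hPRD A B P hH j b hb))

end Pool.Agent.Y808.DR
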