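import Pool.Agent.Y808.DR.Stm3

/-!
# Descent of regularity: statements for primes of height one
-/

set_option autoImplicit false

namespace Pool.Agent.Y808.DR

open IsLocalRing

universe u

/-- WQ: weighted equations for the multiples of a prime element -/
def S_WQ : Prop := ∀ (A B : Type u) [CommRing A] [CommRing B] [IsDomain A] [IsDomain B]
  [IsIntegrallyClosed A] [Algebra A B] [Module.Finite A B],
  Function.Injective (algebraMap A B) → ∀ (w : B), Prime w → ∀ (D s : A) (g b : B) (e : ℕ),
    e ≠ 0 → D ≠ 0 → algebraMap A B D = w ^ e * g → ¬ w ∣ algebraMap A B s →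
    g * b = algebraMap A B s → ∀ x : B, w ∣ x → WEq A B (Ideal.span {w}) 1 x

/-- FIND: the elements needed in WQ exist -/
def S_FIND : Prop := ∀ (A B : Type u) [CommRing A] [CommRing B] [IsDomain A] [IsDomain B]
  [IsNoetherianRing B] [Algebra A B] [Module.Finite A B],
  Function.Injective (algebraMap A B) → ∀ (p : Ideal A) (w : B), p.IsPrime → p ≠ ⊥ → Prime w →
    (p.map (algebraMap A B)).radical = Ideal.span {w} →
    ∃ (D s : A) (g b : B) (e : ℕ), e ≠ 0 ∧ D ≠ 0 ∧ algebraMap A B D = w ^ e * g ∧
      ¬ w ∣ algebraMap A B s ∧ g * b = algebraMap A B s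

end Pool.Agent.Y808.DR
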