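import Pool.Agent.Y808.DR.Fin3
import Pool.Agent.Y808.DR.Stm4

/-!
# Assembly: primes of height one, rings of dimension at most three
-/

set_option autoImplicit false

namespace Pool.Agent.Y808.DR

open IsLocalRing

universe u

theorem eq_bot_of_lt_of_height_le_one {A : Type u} [CommRing A] [IsDomain A] (p q : Ideal A)
    [hp : p.IsPrime] [hq : q.IsPrime] (h : q < p) (hh : p.height ≤ 1) : q = ⊥ := by
  have hfin : q.FiniteHeight := Ideal.finiteHeight_iff q |>.2 (Or.inr (by
    intro h0
    have h1 := Ideal.height_mono h.le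
    rw [h0] at h1
    have h2 := h1.trans hh
    exact absurd h2 (by decide)))
  have h1 := Ideal.height_strict_mono_of_isPrime h
  have h2 : q.height = 0 := by
    have h3 : q.height < 1 := h1.trans_le hh
    exact ENat.lt_one_iff_eq_zero.1 h3
  rw [Ideal.height_eq_zero_iff] at h2
  rw [IsDomain.minimalPrimes_eq_singleton_bot] at h2
  exact h2

theorem exists_gen (A B : Type u) [CommRing A] [CommRing B] [IsDomain A] [IsRegularLocalRing A]
    [IsRegularLocalRing B] [Algebra A B] [Module.Finite A B]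
    (hinj : Function.Injective (algebraMap A B)) (p : Ideal A) (hp : p.IsPrime) (hbot : p ≠ ⊥)
    (hh : p.height ≤ 1) (P : Ideal B) (hPA : ∀ a : A, algebraMap A B a ∈ P ↔ a ∈ p)
    (hreg : IsRegularLocalRing (B ⧸ P)) : ∃ w : B, Prime w ∧ P = Ideal.span {w} := by
  classical
  have hB : IsDomain B := Pool.Agent.H379R3.isDomain B
  obtain ⟨D, hDp, hD⟩ := Submodule.exists_mem_ne_zero_of_ne_bot hbot
  have hDB : algebraMap A B D ≠ 0 := by
    intro h
    exact hD (hinj (by rw [h, map_zero]))
  have hDP : algebraMap A B D ∈ P := (hPA D).2 hDp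
  have hPbot : P ≠ ⊥ := by
    intro h
    rw [h] at hDP
    exact hDB hDP
  have hPtop : P ≠ ⊤ := Ideal.Quotient.nontrivial_iff.1 inferInstance
  have hPm : P ≤ maximalIdeal B := IsLocalRing.le_maximalIdeal hPtop
  have hPsq : ¬ P ≤ maximalIdeal B ^ 2 := fun h =>
    hPbot (Pool.Agent.H379R3.eq_bot_of_le_sq P h)
  obtain ⟨w, hwP, hw2⟩ := Set.not_subset.1 hPsq
  have hwm : w ∈ maximalIdeal B := hPm hwP
  have hw0 : w ≠ 0 := by
    rintro rfl
    exact hw2 (Ideal.zero_mem _)
  obtain ⟨d, hd⟩ := Pool.Agent.H379R3.exists_dim_eq (B := B)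
  have hd0 : d ≠ 0 := by
    rintro rfl
    have := Pool.Agent.H379R3.dim_zero_maximalIdeal_eq_bot hd
    rw [this] at hwm
    exact hw0 hwm
  obtain ⟨d', rfl⟩ := Nat.exists_eq_succ_of_ne_zero hd0
  have hregw := (Pool.Agent.H379R3.regular_quotient w hwm hw2 d' hd).1
  have hdomw : IsDomain (B ⧸ Ideal.span {w}) := Pool.Agent.H379R3.isDomain _
  have hwI : (Ideal.span {w}).IsPrime := (Ideal.Quotient.isDomain_iff_prime _).1 hdomw
  have hwpr : Prime w := (Ideal.span_singleton_prime hw0).1 hwI
  refine ⟨w, hwpr, ?_⟩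
  by_contra hne
  have hle : Ideal.span {w} ≤ P := by
    rw [Ideal.span_singleton_le_iff_mem]; exact hwP
  have hlt : Ideal.span {w} < P := lt_of_le_of_ne hle (Ne.symm hne)
  obtain ⟨x, hxP, hxw⟩ := Set.exists_of_ssubset hlt
  have hint : Algebra.IsIntegral A B := inferInstance
  have h1 := Ideal.comap_lt_comap_of_integral_mem_sdiff (R := A) (I := Ideal.span {w}) (J := P)
    hle (x := x) ⟨hxP, hxw⟩ (Algebra.IsIntegral.isIntegral x)
  have h2 : P.comap (algebraMap A B) = p := by
    ext a
    rw [Ideal.mem_comap]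
    exact hPA a
  rw [h2] at h1
  have h3 : (Ideal.span {w}).comap (algebraMap A B) ≠ ⊥ :=
    Ideal.comap_ne_bot_of_integral_mem hw0 (Ideal.mem_span_singleton_self w)
      (Algebra.IsIntegral.isIntegral w)
  have h4 : ((Ideal.span {w}).comap (algebraMap A B)).IsPrime := hwI.comap _
  exact h3 (eq_bot_of_lt_of_height_le_one p _ h1 hh)

theorem main4 (hTR2 : S_TR2.{u}) (hPRD : S_PRD.{u}) (hORD : S_ORD.{u}) (hSYS : S_SYS.{u})
    (hWQ : S_WQ.{u}) (hFIND : S_FIND.{u})
    (A B : Type u) [CommRing A] [CommRing B] [IsRegularLocalRing A]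
    [IsRegularLocalRing B] [Algebra ℚ A] [Algebra A B] [Module.Finite A B]
    (hinj : Function.Injective (algebraMap A B)) (p : Ideal A) [hp : p.IsPrime]
    (hreg : IsRegularLocalRing (B ⧸ (p.map (algebraMap A B)).radical))
    (hh : p.height ≤ 1) : IsRegularLocalRing (A ⧸ p) := by
  have hA : IsDomain A := Pool.Agent.H379R3.isDomain A
  have hB : IsDomain B := Pool.Agent.H379R3.isDomain B
  have hn : IsIntegrallyClosed A := norm A
  by_cases hbot : p = ⊥
  · exact main1 A B hinj p hreg (Or.inl (by rw [hbot]; infer_instance))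
  obtain ⟨T, hT, hTP, -⟩ := hTR2 A B hinj
  have hTp := hTP p hp
  have hPA : ∀ a : A, algebraMap A B a ∈ (p.map (algebraMap A B)).radical ↔ a ∈ p := by
    intro a
    constructor
    · intro ha
      have h1 := hTp _ ha
      rw [Algebra.algebraMap_eq_smul_one, map_smul, smul_eq_mul] at h1
      exact (hp.mem_or_mem h1).resolve_right fun h =>
        hp.ne_top (Ideal.eq_top_of_isUnit_mem _ h hT)
    · intro ha
      exact Ideal.le_radical (Ideal.mem_map_of_mem _ ha)
  obtain ⟨w, hw, hPw⟩ := exists_gen A B hinj p hp hbot hh _ hPA hreg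
  obtain ⟨D, s, g, b, e, he, hD, hDe, hs, hgb⟩ := hFIND A B hinj p w hp hbot hw hPw
  refine main3 hTR2 hPRD hORD hSYS A B hinj p hreg ?_
  intro x hx
  rw [hPw] at hx ⊢
  exact hWQ A B hinj w hw D s g b e he hD hDe hs hgb x (Ideal.mem_span_singleton.1 hx)

theorem dim_quotient_le_one {A : Type u} [CommRing A] [IsRegularLocalRing A] (p : Ideal A)
    [hp : p.IsPrime] (hdim : ringKrullDim A ≤ 3) (hh : ¬ p.height ≤ 1) :
    ringKrullDim (A ⧸ p) ≤ 1 := by
  have h1 : Ring.KrullDimLE 1 (A ⧸ p) := by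
    rw [Ring.krullDimLE_one_iff_of_noZeroDivisors]
    intro q hq hqp
    by_contra hmax
    let Q := q.comap (Ideal.Quotient.mk p)
    have hQ : Q.IsPrime := hqp.comap _
    have hpQ : p < Q := by
      refine lt_of_le_of_ne ?_ ?_
      · intro a ha
        change Ideal.Quotient.mk p a ∈ q
        rw [Ideal.Quotient.eq_zero_iff_mem.2 ha]
        exact Ideal.zero_mem _
      · intro h
        obtain ⟨x, hx, hx0⟩ := Submodule.exists_mem_ne_zero_of_ne_bot hq
        obtain ⟨a, rfl⟩ := Ideal.Quotient.mk_surjective x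
        have h2 : a ∈ Q := hx
        rw [← h] at h2
        exact hx0 (Ideal.Quotient.eq_zero_iff_mem.2 h2)
    have hQm : Q < maximalIdeal A := by
      refine lt_of_le_of_ne (IsLocalRing.le_maximalIdeal hQ.ne_top) ?_
      intro h
      apply hmax
      have h2 : Q.IsMaximal := by rw [h]; infer_instance
      have h3 : q = Q.map (Ideal.Quotient.mk p) :=
        (Ideal.map_comap_of_surjective _ Ideal.Quotient.mk_surjective q).symm
      rw [h3]
      exact Ideal.IsMaximal.map_of_surjective_of_ker_le Ideal.Quotient.mk_surjective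
        (by rw [Ideal.mk_ker]; exact hpQ.le)
    have e1 := Ideal.height_strict_mono_of_isPrime hpQ
    have e2 := Ideal.height_strict_mono_of_isPrime hQm
    have e3 : (maximalIdeal A).height ≤ 3 := by
      have := IsLocalRing.maximalIdeal_height_eq_ringKrullDim (R := A)
      rw [← this] at hdim
      exact WithBot.coe_le_coe.1 hdim
    have e0 : (1 : ℕ∞) < p.height := not_le.1 hh
    have e01 : (1 : ℕ∞) + 1 ≤ p.height := Order.add_one_le_of_lt e0
    have e4 : (1 : ℕ∞) + 1 + 1 ≤ Q.height :=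
      Order.add_one_le_of_lt (lt_of_le_of_lt e01 e1)
    have e5 : (1 : ℕ∞) + 1 + 1 + 1 ≤ (maximalIdeal A).height :=
      Order.add_one_le_of_lt (lt_of_le_of_lt e4 e2)
    exact absurd (e5.trans e3) (by decide)
  simpa using Ring.krullDimLE_iff.1 h1

end Pool.Agent.Y808.DR
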