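import Pool.Agent.Y808.DR.Fin1

/-!
# Quotients by primes with regular reduced fibre are normal
-/

set_option autoImplicit false

namespace Pool.Agent.Y808.DR

open IsLocalRing

universe u

/-- (after helper921) -/
theorem icl (R S : Type u) [CommRing R] [CommRing S] [IsDomain R] [IsDomain S]
    [IsIntegrallyClosed S] [Algebra R S] (hinj : Function.Injective (algebraMap R S))
    (hret : ∀ (a b : R) (s : S), algebraMap R S a = algebraMap R S b * s → ∃ c : R, a = b * c) :
    IsIntegrallyClosed R := by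
  rw [isIntegrallyClosed_iff (FractionRing R)]
  intro x hx
  obtain ⟨a, b, hb, rfl⟩ := IsFractionRing.div_surjective (A := R) x
  let L := FractionRing S
  have hRL : Function.Injective (algebraMap R L) := by
    rw [IsScalarTower.algebraMap_eq R S L]
    exact (IsFractionRing.injective S L).comp hinj
  let φ : FractionRing R →ₐ[R] L := IsFractionRing.liftAlgHom (g := Algebra.ofId R L) hRL
  have h1 : IsIntegral R (φ (algebraMap R (FractionRing R) a / algebraMap R (FractionRing R) b)) :=
    hx.map φ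
  have h2 : IsIntegral S (φ (algebraMap R (FractionRing R) a / algebraMap R (FractionRing R) b)) :=
    h1.tower_top
  obtain ⟨s, hs⟩ := IsIntegrallyClosed.isIntegral_iff.1 h2
  have hb0 : b ≠ 0 := nonZeroDivisors.ne_zero hb
  have hbL : algebraMap R L b ≠ 0 := fun h => hb0 (hRL (by rw [h, map_zero]))
  rw [map_div₀, φ.commutes, φ.commutes, eq_div_iff hbL] at hs
  have h3 : algebraMap R S a = algebraMap R S b * s := by
    apply IsFractionRing.injective S L
    rw [map_mul, ← IsScalarTower.algebraMap_apply, ← IsScalarTower.algebraMap_apply, ← hs,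
      mul_comm]
  obtain ⟨c, hc⟩ := hret a b s h3
  refine ⟨c, ?_⟩
  have hbK : algebraMap R (FractionRing R) b ≠ 0 := fun h =>
    hb0 (IsFractionRing.injective R (FractionRing R) (by rw [h, map_zero]))
  rw [eq_div_iff hbK, hc, map_mul, mul_comm]

theorem normal (A B : Type u) [CommRing A] [CommRing B] [IsRegularLocalRing A]
    [IsRegularLocalRing B] [Algebra ℚ A] [Algebra A B] [Module.Finite A B]
    (hinj : Function.Injective (algebraMap A B)) (p : Ideal A) [hp : p.IsPrime]
    (hreg : IsRegularLocalRing (B ⧸ (p.map (algebraMap A B)).radical)) :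
    IsIntegrallyClosed (A ⧸ p) := by
  have hA : IsDomain A := Pool.Agent.H379R3.isDomain A
  have hB : IsDomain B := Pool.Agent.H379R3.isDomain B
  have hn : IsIntegrallyClosed A := norm A
  obtain ⟨T, hT1, hTP⟩ := Pool.Agent.Y43.DR.TR.t_TR A B hinj
  have hTp := hTP p hp
  set P := (p.map (algebraMap A B)).radical with hP
  have hle : p ≤ P.comap (algebraMap A B) := fun a ha =>
    Ideal.le_radical (Ideal.mem_map_of_mem _ ha)
  let j : A ⧸ p →+* B ⧸ P := Ideal.quotientMap P (algebraMap A B) hle
  let _ : Algebra (A ⧸ p) (B ⧸ P) := j.toAlgebra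
  have hjmk : ∀ a : A, algebraMap (A ⧸ p) (B ⧸ P) (Ideal.Quotient.mk p a) =
      Ideal.Quotient.mk P (algebraMap A B a) := fun a => rfl
  have hTa : ∀ a : A, T (algebraMap A B a) = a * T 1 := by
    intro a
    rw [Algebra.algebraMap_eq_smul_one, map_smul, smul_eq_mul]
  have hinj' : Function.Injective (algebraMap (A ⧸ p) (B ⧸ P)) := by
    rw [injective_iff_map_eq_zero]
    intro x hx
    obtain ⟨a, rfl⟩ := Ideal.Quotient.mk_surjective x
    rw [hjmk, Ideal.Quotient.eq_zero_iff_mem] at hx
    have h1 := hTp _ hx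
    rw [hTa] at h1
    rw [Ideal.Quotient.eq_zero_iff_mem]
    exact (hp.mem_or_mem h1).resolve_right fun h => hp.ne_top (Ideal.eq_top_of_isUnit_mem _ h hT1)
  have hS : IsDomain (B ⧸ P) := Pool.Agent.H379R3.isDomain _
  letI : Algebra ℚ (B ⧸ P) :=
    (((Ideal.Quotient.mk P).comp (algebraMap A B)).comp (algebraMap ℚ A)).toAlgebra
  have hSn : IsIntegrallyClosed (B ⧸ P) := norm (B ⧸ P)
  refine icl (A ⧸ p) (B ⧸ P) hinj' ?_
  intro x y s hxys
  obtain ⟨a, rfl⟩ := Ideal.Quotient.mk_surjective x
  obtain ⟨b, rfl⟩ := Ideal.Quotient.mk_surjective y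
  obtain ⟨b', rfl⟩ := Ideal.Quotient.mk_surjective s
  rw [hjmk, hjmk, ← map_mul, Ideal.Quotient.eq] at hxys
  have h1 := hTp _ hxys
  rw [map_sub, hTa, ← Algebra.smul_def, map_smul, smul_eq_mul] at h1
  obtain ⟨v, hv⟩ := hT1.exists_right_inv
  refine ⟨Ideal.Quotient.mk p (T b' * v), ?_⟩
  rw [← map_mul, Ideal.Quotient.eq]
  have h2 : a - b * (T b' * v) = (a * T 1 - b * T b') * v := by
    calc a - b * (T b' * v) = a * (T 1 * v) - b * (T b' * v) := by rw [hv, mul_one]
      _ = (a * T 1 - b * T b') * v := by ring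
  rw [h2]
  exact Ideal.mul_mem_right _ _ h1

end Pool.Agent.Y808.DR
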