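import Pool.Agent.Y808.DR.Stm
import Pool.Agent.H379R3.Reg

/-!
# The case of a principal prime
-/

set_option autoImplicit false

namespace Pool.Agent.Y808.DR

open IsLocalRing

universe u

/-- The maximal ideal of `A` extends to a primary ideal of `B`. -/
theorem exists_pow_le_map (A B : Type u) [CommRing A] [CommRing B] [IsLocalRing A] [IsLocalRing B]
    [IsNoetherianRing B] [Algebra A B] [Module.Finite A B] :
    ∃ M : ℕ, maximalIdeal B ^ M ≤ (maximalIdeal A).map (algebraMap A B) := by
  apply Ideal.exists_pow_le_of_le_radical_of_fg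
  · rw [Ideal.radical_eq_sInf]
    refine le_sInf ?_
    rintro Q ⟨hQ, hQp⟩
    have h1 : maximalIdeal A ≤ Q.comap (algebraMap A B) := Ideal.map_le_iff_le_comap.1 hQ
    have h2 : (Q.comap (algebraMap A B)).IsPrime := hQp.comap _
    have h3 : Q.comap (algebraMap A B) = maximalIdeal A :=
      le_antisymm (IsLocalRing.le_maximalIdeal h2.ne_top) h1
    have h4 : (Q.comap (algebraMap A B)).IsMaximal := by rw [h3]; infer_instance
    have h5 : Q.IsMaximal := by
      have : Algebra.IsIntegral A B := inferInstance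
      exact Ideal.isMaximal_of_isIntegral_of_isMaximal_comap Q h4
    exact (IsLocalRing.eq_maximalIdeal h5).ge
  · exact (maximalIdeal B).fg_of_isNoetherianRing

theorem t_ONE (hKL : S_KL.{u}) (A B : Type u) [CommRing A] [CommRing B] [IsRegularLocalRing A]
    [IsRegularLocalRing B] [Algebra ℚ B] [Algebra A B] [Module.Finite A B]
    (hinj : Function.Injective (algebraMap A B)) (D : A) (hp : (Ideal.span {D}).IsPrime)
    (T : B →ₗ[A] A) (hT : IsUnit (T 1))
    (hTP : ∀ b ∈ ((Ideal.span {D}).map (algebraMap A B)).radical, T b ∈ Ideal.span {D})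
    (hreg : IsRegularLocalRing (B ⧸ ((Ideal.span {D}).map (algebraMap A B)).radical)) :
    IsRegularLocalRing (A ⧸ Ideal.span {D}) := by
  classical
  have hA : IsDomain A := Pool.Agent.H379R3.isDomain A
  have hB : IsDomain B := Pool.Agent.H379R3.isDomain B
  by_cases hD : D = 0
  · subst hD
    rw [Ideal.span_singleton_zero]
    exact IsRegularLocalRing.of_ringEquiv (RingEquiv.quotientBot A).symm
  set P : Ideal B := ((Ideal.span {D}).map (algebraMap A B)).radical with hP
  have hDm : D ∈ maximalIdeal A :=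
    IsLocalRing.le_maximalIdeal hp.ne_top (Ideal.mem_span_singleton_self D)
  have hDB : algebraMap A B D ≠ 0 := by
    intro h
    exact hD (hinj (by rw [h, map_zero]))
  have hmap : (Ideal.span {D}).map (algebraMap A B) = Ideal.span {algebraMap A B D} := by
    rw [Ideal.map_span, Set.image_singleton]
  have hDP : algebraMap A B D ∈ P :=
    Ideal.le_radical (by rw [hmap]; exact Ideal.mem_span_singleton_self _)
  have hPbot : P ≠ ⊥ := by
    intro h
    rw [h] at hDP
    exact hDB hDP
  have hPtop : P ≠ ⊤ := Ideal.Quotient.nontrivial_iff.1 inferInstance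
  have hPm : P ≤ maximalIdeal B := IsLocalRing.le_maximalIdeal hPtop
  have hPsq : ¬ P ≤ maximalIdeal B ^ 2 := fun h =>
    hPbot (Pool.Agent.H379R3.eq_bot_of_le_sq P h)
  obtain ⟨w, hwP, hw2⟩ := Set.not_subset.1 hPsq
  have hwm : w ∈ maximalIdeal B := hPm hwP
  have hw0 : w ≠ 0 := by
    rintro rfl
    exact hw2 (Ideal.zero_mem _)
  -- w is a prime element
  obtain ⟨d, hd⟩ := Pool.Agent.H379R3.exists_dim_eq (B := B)
  have hd0 : d ≠ 0 := by
    rintro rfl
    have := Pool.Agent.H379R3.dim_zero_maximalIdeal_eq_bot hd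
    rw [this] at hwm
    exact hw0 hwm
  obtain ⟨d', rfl⟩ := Nat.exists_eq_succ_of_ne_zero hd0
  have hregw := (Pool.Agent.H379R3.regular_quotient w hwm hw2 d' hd).1
  have hdomw : IsDomain (B ⧸ Ideal.span {w}) := Pool.Agent.H379R3.isDomain _
  have hwpr : Prime w :=
    (Ideal.span_singleton_prime hw0).1 ((Ideal.Quotient.isDomain_iff_prime _).1 hdomw)
  -- D is a unit times a power of w
  obtain ⟨N, hN⟩ := Ideal.mem_radical_iff.1 (show w ∈ Ideal.radical _ from hwP)
  rw [hmap, Ideal.mem_span_singleton] at hN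
  obtain ⟨e, -, v, hv⟩ := (dvd_prime_pow hwpr N).1 hN
  -- hv : algebraMap D * v = w ^ e
  have he : e ≠ 0 := by
    rintro rfl
    rw [pow_zero] at hv
    apply hPtop
    rw [Ideal.eq_top_iff_one, ← hv]
    exact Ideal.mul_mem_right _ _ hDP
  obtain ⟨e', rfl⟩ := Nat.exists_eq_succ_of_ne_zero he
  set u : Bˣ := v⁻¹ with hu
  have hDu : algebraMap A B D = u * w * w ^ e' := by
    have h1 : algebraMap A B D = w ^ (e' + 1) * u := by
      rw [← hv, hu, mul_assoc, Units.mul_inv, mul_one]
    rw [h1, pow_succ]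
    ring
  set q : Ideal B := (maximalIdeal A).map (algebraMap A B) with hq
  -- the power w ^ e' is not in q
  have hnot : w ^ e' ∉ q := by
    intro hmem
    let ψ : B →ₗ[A] A := T ∘ₗ (LinearMap.mulLeft A ((u : B) * w))
    have hψ : ∀ x, ψ x = T ((u : B) * w * x) := fun x => rfl
    have h1 : ∀ x, ψ x ∈ Ideal.span {D} := by
      intro x
      rw [hψ]
      exact hTP _ (Ideal.mul_mem_right _ _ (Ideal.mul_mem_left _ _ hwP))
    have h2 : ∀ x ∈ q, ψ x ∈ maximalIdeal A * Ideal.span {D} := by
      intro x hx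
      have hx' : x ∈ (maximalIdeal A • ⊤ : Submodule A B) := by
        rw [Ideal.smul_top_eq_map]
        exact hx
      refine Submodule.smul_induction_on (p := fun x => ψ x ∈ maximalIdeal A * Ideal.span {D})
        hx' ?_ ?_
      · intro m hm y _
        rw [map_smul, smul_eq_mul]
        exact Ideal.mul_mem_mul hm (h1 y)
      · intro x y hx hy
        rw [map_add]; exact Ideal.add_mem _ hx hy
    have h3 : ψ (w ^ e') = D * T 1 := by
      rw [hψ, ← hDu]
      rw [Algebra.algebraMap_eq_smul_one, map_smul, smul_eq_mul]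
    have h4 := h2 _ hmem
    rw [h3, Ideal.mem_mul_span_singleton] at h4
    obtain ⟨m, hm, hmD⟩ := h4
    have h5 : T 1 = m := by
      apply mul_left_cancel₀ hD
      rw [← hmD]; ring
    rw [← h5] at hm
    exact (IsLocalRing.mem_maximalIdeal _).1 hm hT
  have hD2 : D ∉ maximalIdeal A ^ 2 := by
    intro h
    obtain ⟨M, hM⟩ := exists_pow_le_map A B
    apply hnot
    refine hKL B w hwm hw2 q M hM e' ?_
    have h1 : algebraMap A B D ∈ q ^ 2 := by
      rw [hq, ← Ideal.map_pow]
      exact Ideal.mem_map_of_mem _ h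
    have h2 : w ^ (e' + 1) = algebraMap A B D * v := hv.symm
    rw [h2]
    exact Ideal.mul_mem_right _ _ h1
  obtain ⟨a, ha⟩ := Pool.Agent.H379R3.exists_dim_eq (B := A)
  have ha0 : a ≠ 0 := by
    rintro rfl
    have := Pool.Agent.H379R3.dim_zero_maximalIdeal_eq_bot ha
    rw [this] at hDm
    exact hD hDm
  obtain ⟨a', rfl⟩ := Nat.exists_eq_succ_of_ne_zero ha0
  exact (Pool.Agent.H379R3.regular_quotient D hDm hD2 a' ha).1

end Pool.Agent.Y808.DR
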