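import Mathlib

/-!
# Descent of regularity along finite extensions in equal characteristic zero:
statements of the parts
-/

set_option autoImplicit false

namespace Pool.Agent.Y808.DR

open IsLocalRing

universe u

/-- QR: a regular system of parameters is quasi-regular -/
def S_QR : Prop := ∀ (B : Type u) [CommRing B] [Algebra ℚ B] [IsRegularLocalRing B] (d : ℕ)
  (z : Fin d → B), ringKrullDim B = d → Ideal.span (Set.range z) = maximalIdeal B →
  ∀ (j : ℕ) (G : MvPolynomial (Fin d) B), G.IsHomogeneous j →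
    MvPolynomial.eval z G ∈ maximalIdeal B ^ (j + 1) → ∀ m, G.coeff m ∈ maximalIdeal B

/-- NORM: normality -/
def S_NORM : Prop := ∀ (B : Type u) [CommRing B] [Algebra ℚ B] [IsRegularLocalRing B],
  IsIntegrallyClosed B

/-- KL: the key lemma -/
def S_KL : Prop := ∀ (B : Type u) [CommRing B] [Algebra ℚ B] [IsRegularLocalRing B] (w : B),
  w ∈ maximalIdeal B → w ∉ maximalIdeal B ^ 2 →
  ∀ (I : Ideal B) (M : ℕ), maximalIdeal B ^ M ≤ I → ∀ e : ℕ, w ^ (e + 1) ∈ I ^ 2 → w ^ e ∈ I

/-- TR: the trace retraction -/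
def S_TR : Prop := ∀ (A B : Type u) [CommRing A] [CommRing B] [IsDomain A] [IsDomain B]
  [IsIntegrallyClosed A] [Algebra ℚ A] [Algebra A B] [Module.Finite A B],
  Function.Injective (algebraMap A B) →
    ∃ T : B →ₗ[A] A, IsUnit (T 1) ∧
      ∀ p : Ideal A, p.IsPrime → ∀ b ∈ (p.map (algebraMap A B)).radical, T b ∈ p

/-- TWO: the one-dimensional case -/
def S_TWO : Prop := ∀ (A B : Type u) [CommRing A] [CommRing B] [IsLocalRing A]
  [IsNoetherianRing A] [Algebra A B] [Module.Finite A B] (p : Ideal A) (T : B →ₗ[A] A),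
  Function.Injective (algebraMap A B) → p.IsPrime → IsUnit (T 1) →
  (∀ b ∈ (p.map (algebraMap A B)).radical, T b ∈ p) →
  IsRegularLocalRing (B ⧸ (p.map (algebraMap A B)).radical) →
  ringKrullDim (A ⧸ p) ≤ 1 → IsRegularLocalRing (A ⧸ p)

end Pool.Agent.Y808.DR
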